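import Mathlib
import Pool.Agent.H893SG.All

/-!
The group von Neumann algebras of some one-relator groups are free group factors.

For a group `Γ` the Hilbert space `ℓ²(Γ)` is a Hilbert space `H` with an orthonormal basis
`(δ_g)` indexed by the elements `g` of `Γ`; the left translation `λ_g` is the bounded operator
with `λ_g δ_h = δ_{gh}`.

Proof by helper893, formalised in `Pool/Agent/H893SG` by helpers 7, 45, 86, 113, 128, 140, 157,
202, 237, 269, 275, 279, 296, 329, 412, 454, 457, 487, 496, 649, 652, 740, 747, 777, 804, 809, 841,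
865, 972 and helper893, on top of the isomorphism of the free group factors
(`Pool/Agent/H581R/FF`, helpers 581, 722, 667 and others; `Pool/Agent/H146R2/FI`, helper146).
-/

namespace Pool.Agent.Results.MP_494aff_an.OneRelatorFactors

section
variable {Γ H : Type} [Group Γ] [NormedAddCommGroup H] [InnerProductSpace ℂ H]

/-- The copy of the group algebra `ℂΓ` in `B(H)`: the linear span of the left translations
`λ_g`, `g ∈ Γ`, where `λ_g δ_h = δ_{gh}`. -/
def groupAlgebra (δ : HilbertBasis Γ ℂ H) : Set (H →L[ℂ] H) :=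
  Submodule.span ℂ {T : H →L[ℂ] H | ∃ g, ∀ h, T (δ h) = δ (g * h)}

/-- `L Γ` acting on `H = ℓ²(Γ)`: the closure of the copy of the group algebra `ℂΓ` in the weak
operator topology of `B(H)`. -/
def L (δ : HilbertBasis Γ ℂ H) : Set (H →L[ℂ] H) :=
  ContinuousLinearMapWOT.ofCLM ⁻¹' closure (ContinuousLinearMapWOT.ofCLM '' groupAlgebra δ)

end

section
variable {H K : Type} [NormedAddCommGroup H] [InnerProductSpace ℂ H] [CompleteSpace H]
  [NormedAddCommGroup K] [InnerProductSpace ℂ K] [CompleteSpace K]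

/-- Two von Neumann algebras are isomorphic as complex `*`-algebras. -/
def StarIso (M : VonNeumannAlgebra H) (N : VonNeumannAlgebra K) : Prop :=
  Nonempty (M.toStarSubalgebra ≃⋆ₐ[ℂ] N.toStarSubalgebra)

/-- The sets of operators `A` and `B` are (the underlying sets of) von Neumann algebras which are
isomorphic as complex `*`-algebras. -/
def VNIso (A : Set (H →L[ℂ] H)) (B : Set (K →L[ℂ] K)) : Prop :=
  ∃ (M : VonNeumannAlgebra H) (N : VonNeumannAlgebra K),
    (M : Set (H →L[ℂ] H)) = A ∧ (N : Set (K →L[ℂ] K)) = B ∧ StarIso M N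

/-- There is a unitary `W : H → K` such that `T ∈ A` if and only if `W T W⁻¹ ∈ B`. -/
def SpatialIso (A : Set (H →L[ℂ] H)) (B : Set (K →L[ℂ] K)) : Prop :=
  ∃ W : H ≃ₗᵢ[ℂ] K, ∀ T : H →L[ℂ] H, T ∈ A ↔ W.conjStarAlgEquiv T ∈ B

end

/-- The von Neumann algebras `L(Γ)` and `L(Γ')` are isomorphic: for all Hilbert spaces `H`, `K`
with orthonormal bases indexed by `Γ` and `Γ'`, `L(Γ)` and `L(Γ')` are (the underlying sets of) von
Neumann algebras on `H` and `K`, which are isomorphic as complex `*`-algebras, even spatially. -/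
def Iso (Γ Γ' : Type) [Group Γ] [Group Γ'] : Prop :=
  ∀ (H K : Type) [NormedAddCommGroup H] [InnerProductSpace ℂ H] [CompleteSpace H]
    [NormedAddCommGroup K] [InnerProductSpace ℂ K] [CompleteSpace K]
    (δ : HilbertBasis Γ ℂ H) (δ' : HilbertBasis Γ' ℂ K),
    VNIso (L δ) (L δ') ∧ SpatialIso (L δ) (L δ')

/-- `L(Γ)` is isomorphic to the free group factors `L(F_n)`, `2 ≤ n < ∞`, and `L(F_∞)`. -/
def IsFreeGroupFactor (Γ : Type) [Group Γ] : Prop :=
  (∀ n : ℕ, 2 ≤ n → Iso Γ (FreeGroup (Fin n))) ∧ Iso Γ (FreeGroup ℕ)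

/-- The one-relator group with the generators `κ` and `t` and the relation
`t x t⁻¹ = q p⁻¹ q⁻¹ p v`; here `p`, `q`, `x` are in `κ` and `v` is a word in the letters `κ`; the
generator `t` is `none`, the generator `z ∈ κ` is `some z`. -/
abbrev CommutatorGroup {κ : Type} (p q x : κ) (v : FreeGroup κ) : Type :=
  PresentedGroup ({FreeGroup.of none * FreeGroup.map some (FreeGroup.of x) *
    (FreeGroup.of none)⁻¹ * (FreeGroup.map some (FreeGroup.of q * (FreeGroup.of p)⁻¹ *
      (FreeGroup.of q)⁻¹ * FreeGroup.of p * v))⁻¹} : Set (FreeGroup (Option κ)))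

/-- For all countable sets `κ` of letters, different letters `p`, `q`, `x` in `κ` and words `v` in
the letters of `κ` other than `p` and `q`, the von Neumann algebra of the group generated by `κ` and
`t` with the relation `t x t⁻¹ = [q, p⁻¹] v` is a free group factor. -/
theorem result (κ : Type) [Countable κ] (p q x : κ) (v : FreeGroup κ) (hpq : p ≠ q) (hpx : p ≠ x)
    (hqx : q ≠ x)
    (hv : v ∈ Subgroup.closure {w : FreeGroup κ | ∃ z, z ≠ p ∧ z ≠ q ∧ w = FreeGroup.of z}) :
    IsFreeGroupFactor (CommutatorGroup p q x v) := by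
  have key : ∀ (Γ Γ' : Type) [Group Γ] [Group Γ'], Pool.Agent.H893SG.Sp Γ Γ' → Iso Γ Γ' := by
    intro Γ Γ' _ _ h H K _ _ _ _ _ _ δ δ'
    obtain ⟨W, hW⟩ := Pool.Agent.H581R.FF.Abst.transfer h δ δ'
    refine ⟨⟨Pool.Agent.H581R.FF.Abst.VN δ, Pool.Agent.H581R.FF.Abst.VN δ',
      Pool.Agent.H581R.FF.Abst.VN_coe δ, Pool.Agent.H581R.FF.Abst.VN_coe δ', ?_⟩, W, hW⟩
    refine Pool.Agent.H581R.FF.Abst.star_iso _ _ W fun T => ?_
    have h1 := Pool.Agent.H581R.FF.Abst.LL_iff δ T
    have h2 := Pool.Agent.H581R.FF.Abst.LL_iff δ' (W.conjStarAlgEquiv T)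
    exact h1.symm.trans ((hW T).trans h2)
  have h := Pool.Agent.H893SG.main1 κ p q x v hpq hpx hqx hv
  exact ⟨fun n hn => key _ _ (Pool.Agent.H893SG.sp_trans h
      (Pool.Agent.H893SG.sp_free _ _ _ hpq n hn)),
    key _ _ (Pool.Agent.H893SG.sp_trans h (Pool.Agent.H893SG.sp_free_inf _ _ _ hpq))⟩

end Pool.Agent.Results.MP_494aff_an.OneRelatorFactors
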